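import Pool.Agent.H12.KG.Targets

/-!
# KEW, block G, row UCX: horizontal curves have exactly one closed point
-/

set_option autoImplicit false

namespace Pool.Agent.H38.KG

open AlgebraicGeometry CategoryTheory Pool.Agent.H12.KP Pool.Agent.H12.KG

universe u

theorem pf_UCX (hC : S_CLEX.{u}) (hN : S_UNQ.{u}) (hQ : S_QGR.{u}) (hQP : S_QPT.{u})
    (hPT : S_PTS.{u}) (hI : S_IMM.{u}) : S_UCX.{u} := by
  intro A S _ _ _ _ _ _ _ 𝒮 _ hfg hgen X i hi π hπ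
  obtain ⟨p1, p2, p3, p4, p5, p6⟩ := hPT A S 𝒮 hgen
  obtain ⟨i1, i2, i3, i4, i5, -⟩ := hI A X (Proj 𝒮) i (projStr 𝒮) hi
  have hπm : π ∈ IsLocalRing.maximalIdeal A := (IsLocalRing.mem_maximalIdeal π).2 hπ.not_isUnit
  have hSp : ∀ x : X, Sp (i ≫ projStr 𝒮) π x ↔ algebraMap A S π ∈ idl 𝒮 (i x) := fun x =>
    (i5 π x).trans (p6 π (i x))
  have hcl : ∀ x : X, IsClosed ({x} : Set X) ↔
      ∀ Q : Ideal S, Rel 𝒮 Q → idl 𝒮 (i x) ≤ Q → Q = idl 𝒮 (i x) := fun x =>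
    (i4 x).trans (p5 (i x))
  have h1 : ∀ x : X, IsClosed ({x} : Set X) → Sp (i ≫ projStr 𝒮) π x := by
    intro x hx
    rw [hSp]
    obtain ⟨Q, hQ1, hQ2⟩ := hC A S 𝒮 hfg hgen π hπm (idl 𝒮 (i x)) (p1 (i x))
    have h := (hcl x).1 hx Q hQ2.1 hQ1
    rw [← h]
    exact hQ2.2.1
  have hlift : ∀ (w : X) (Q : Ideal S), Rel 𝒮 Q → idl 𝒮 (i w) ≤ Q →
      ∃ y : X, w ⤳ y ∧ idl 𝒮 (i y) = Q := by
    intro w Q hQr hle
    obtain ⟨y', hy'⟩ := p2 Q hQr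
    have h : i w ⤳ y' := (p3 (i w) y').2 (by rw [hy']; exact hle)
    obtain ⟨y, hy⟩ := i2 w y' h
    refine ⟨y, (i1 w y).2 (by rw [hy]; exact h), by rw [hy, hy']⟩
  have h2 : ∀ w : X, ∃ x : X, w ⤳ x ∧ IsClosed ({x} : Set X) := by
    intro w
    obtain ⟨Q, hQ1, hQ2⟩ := hC A S 𝒮 hfg hgen π hπm (idl 𝒮 (i w)) (p1 (i w))
    obtain ⟨y, hy1, hy2⟩ := hlift w Q hQ2.1 hQ1
    refine ⟨y, hy1, (hcl y).2 ?_⟩
    rw [hy2]
    exact hQ2.2.2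
  refine ⟨h1, h2, ?_⟩
  intro z hz hsp
  obtain ⟨x1, hx1, hc1⟩ := h2 z
  refine ⟨x1, ⟨hx1, hc1⟩, ?_⟩
  rintro x2 ⟨hx2, hc2⟩
  -- the quotient
  set w : Ideal S := idl 𝒮 (i z) with hw
  have hwr : Rel 𝒮 w := p1 (i z)
  have hwp : w.IsPrime := hwr.1
  obtain ⟨hG⟩ := hQ A S 𝒮 w hwr.2.1
  have hle : ∀ x : X, z ⤳ x → w ≤ idl 𝒮 (i x) := fun x hx => (p3 (i z) (i x)).1 ((i1 z x).1 hx)
  have hπw : algebraMap A S π ∉ w := fun h => hz ((hSp z).2 h)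
  obtain ⟨q1, q2⟩ := hQP A S 𝒮 w
  have hsurj : Function.Surjective (Ideal.Quotient.mk w) := Ideal.Quotient.mk_surjective
  have hfgq : (qgr 𝒮 w 1).FG := hfg.map _
  have hgenq : Algebra.adjoin A (qgr 𝒮 w 1 : Set (S ⧸ w)) = ⊤ := by
    have e1 : (qgr 𝒮 w 1 : Set (S ⧸ w)) = (Ideal.Quotient.mkₐ A w) '' (𝒮 1 : Set S) := by
      unfold qgr
      rw [Submodule.map_coe]; rfl
    rw [e1, ← AlgHom.map_adjoin, hgen, Algebra.map_top, AlgHom.range_eq_top]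
    exact Ideal.Quotient.mkₐ_surjective A w
  have hπ0 : algebraMap A (S ⧸ w) π ≠ 0 := by
    intro h
    apply hπw
    have h' : Ideal.Quotient.mk w (algebraMap A S π) = 0 := h
    exact Ideal.Quotient.eq_zero_iff_mem.1 h'
  have hClo : ∀ P : Ideal (S ⧸ w), Rel (qgr 𝒮 w) P → P ≠ ⊥ → Clo (qgr 𝒮 w) π P := by
    intro P hP hP0
    have hQr := q2 P hP
    have hwQ : w ≤ P.comap (Ideal.Quotient.mk w) := by
      intro s hs
      rw [Ideal.mem_comap, Ideal.Quotient.eq_zero_iff_mem.2 hs]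
      exact P.zero_mem
    obtain ⟨y, hy1, hy2⟩ := hlift z _ hQr hwQ
    have hyz : y ≠ z := by
      intro h
      rw [h, ← hw] at hy2
      apply hP0
      rw [← Ideal.map_comap_of_surjective _ hsurj P, ← hy2, Ideal.map_quotient_self]
    have hyc : IsClosed ({y} : Set X) := hsp y hy1 hyz
    have hπy : algebraMap A S π ∈ idl 𝒮 (i y) := (hSp y).1 (h1 y hyc)
    refine ⟨hP, ?_, ?_⟩
    · rw [hy2] at hπy
      exact hπy
    · intro Q' hQ' hPQ'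
      have h5 := (hcl y).1 hyc _ (q2 Q' hQ') (by rw [hy2]; exact Ideal.comap_mono hPQ')
      rw [hy2] at h5
      exact Ideal.comap_injective_of_surjective _ hsurj h5
  have key : ∀ x : X, z ⤳ x → IsClosed ({x} : Set X) →
      Clo (qgr 𝒮 w) π ((idl 𝒮 (i x)).map (Ideal.Quotient.mk w)) := by
    intro x hx hcx
    refine hClo _ (q1 _ (hle x hx) (p1 (i x))) ?_
    intro h0
    have h6 : algebraMap A S π ∈ idl 𝒮 (i x) := (hSp x).1 (h1 x hcx)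
    have h7 : Ideal.Quotient.mk w (algebraMap A S π) ∈
        (idl 𝒮 (i x)).map (Ideal.Quotient.mk w) := Ideal.mem_map_of_mem _ h6
    rw [h0, Ideal.mem_bot] at h7
    exact hπ0 h7
  have h8 := hN A (S ⧸ w) (qgr 𝒮 w) hfgq hgenq π hπ hπ0 hClo _ _ (key x2 hx2 hc2) (key x1 hx1 hc1)
  have h9 : idl 𝒮 (i x2) = idl 𝒮 (i x1) := by
    rw [← Ideal.comap_map_mk (hle x2 hx2), ← Ideal.comap_map_mk (hle x1 hx1), h8]
  exact i3 x2 x1 (p4 _ _ h9)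

end Pool.Agent.H38.KG
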